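import Pool.Agent.Work.MP_07ff6b_an.Core

/-!
# Discretizing continuous Parseval frames with stable phase retrieval

Full positive answer to Q1, for real and complex scalars, with constants which depend only
on `C` and `β` (in particular neither on the scalar field nor on the dimension).
-/

open MeasureTheory

universe u v w

namespace Pool.Agent.Results.MP_07ff6b_an.Main

/-- The analysis operator `Θ` of a family `x : Ω → H`, i.e. `Θ h = (⟨h, x_t⟩)_{t ∈ Ω}`,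
the inner product being linear in `h` (Mathlib's `inner 𝕜 a b` is linear in `b`). -/
noncomputable def analysis (𝕜 : Type*) [RCLike 𝕜] {H : Type*} [NormedAddCommGroup H]
    [InnerProductSpace 𝕜 H] {Ω : Type*} (x : Ω → H) (h : H) : Ω → 𝕜 :=
  fun t => inner 𝕜 (x t) h

/-- `x : Ω → H` is a continuous Parseval frame of `H` with respect to `μ`: every
`t ↦ ⟨h, x_t⟩` is measurable and `∫ |⟨h, x_t⟩|² dμ(t) = ‖h‖²` for every `h`. -/
def IsContinuousParsevalFrame (𝕜 : Type*) [RCLike 𝕜] {H : Type*} [NormedAddCommGroup H]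
    [InnerProductSpace 𝕜 H] {Ω : Type*} [MeasurableSpace Ω] (μ : Measure Ω) (x : Ω → H) : Prop :=
  (∀ h : H, Measurable (analysis 𝕜 x h)) ∧
    ∀ h : H, ∫⁻ t, ‖analysis 𝕜 x h t‖ₑ ^ 2 ∂μ = ‖h‖ₑ ^ 2

/-- The set `E` of functions does `C`-stable phase retrieval in `L_p(μ)`:
`min_{|z| = 1} ‖f - z g‖_p ≤ C ‖ |f| - |g| ‖_p` for all `f, g ∈ E`. -/
def StablePRLp (𝕜 : Type*) [RCLike 𝕜] {Ω : Type*} [MeasurableSpace Ω] (μ : Measure Ω)
    (p : ENNReal) (E : Set (Ω → 𝕜)) (C : ℝ) : Prop :=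
  ∀ f ∈ E, ∀ g ∈ E, (⨅ z : Metric.sphere (0 : 𝕜) 1, eLpNorm (fun t => f t - (z : 𝕜) * g t) p μ) ≤
    ENNReal.ofReal C * eLpNorm (fun t => ‖f t‖ - ‖g t‖) p μ

/-- The finite family `y` in `H` does `κ`-stable phase retrieval:
`min_{|z| = 1} ‖a - z b‖ ≤ κ (∑_j (|⟨a, y_j⟩| - |⟨b, y_j⟩|)²)^{1/2}` for all `a, b ∈ H`. -/
def StablePRFinite (𝕜 : Type*) [RCLike 𝕜] {H : Type*} [NormedAddCommGroup H]
    [InnerProductSpace 𝕜 H] {m : ℕ} (y : Fin m → H) (κ : ℝ) : Prop :=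
  ∀ a b : H, (⨅ z : Metric.sphere (0 : 𝕜) 1, ‖a - (z : 𝕜) • b‖) ≤
    κ * Real.sqrt (∑ j, (‖(inner 𝕜 (y j) a : 𝕜)‖ - ‖(inner 𝕜 (y j) b : 𝕜)‖) ^ 2)

/-- **Positive answer to Q1.**  For all `C, β > 0` there are `D, κ > 0` such that for every `n`
there is `m ≤ D n` such that every continuous Parseval frame `(x_t)` of an `n`-dimensional Hilbert
space over a probability space with `‖x_t‖ ≤ β √n`, whose range does `C`-stable phase retrieval
both in `L_1` and in `L_2`, can be sampled at `m` points so that the rescaled sampled family spans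
the space and does `κ`-stable phase retrieval. -/
theorem result (C β : ℝ) (hC : 0 < C) (hβ : 0 < β) :
    ∃ D κ : ℝ, 0 < D ∧ 0 < κ ∧ ∀ n : ℕ, ∃ m : ℕ, (m : ℝ) ≤ D * n ∧
      ∀ (𝕜 : Type u) [RCLike 𝕜] (H : Type v) [NormedAddCommGroup H] [InnerProductSpace 𝕜 H]
        [FiniteDimensional 𝕜 H] (Ω : Type w) [MeasurableSpace Ω] (μ : Measure Ω)
        [IsProbabilityMeasure μ] (x : Ω → H),
        Module.finrank 𝕜 H = n →
        IsContinuousParsevalFrame 𝕜 μ x →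
        StablePRLp 𝕜 μ 1 (Set.range (analysis 𝕜 x)) C →
        StablePRLp 𝕜 μ 2 (Set.range (analysis 𝕜 x)) C →
        (∀ t, ‖x t‖ ≤ β * Real.sqrt n) →
        ∃ t : Fin m → Ω,
          Submodule.span 𝕜 (Set.range fun j => (((Real.sqrt m)⁻¹ : ℝ) : 𝕜) • x (t j)) = ⊤ ∧
          StablePRFinite 𝕜 (fun j => (((Real.sqrt m)⁻¹ : ℝ) : 𝕜) • x (t j)) κ := by
  classical
  obtain ⟨c1, N, δ, y, D, hc1, hN, hN1, hN2, hδ, hy0, hy1, hD, hnum⟩ :=
    Work.MP_07ff6b_an.exists_consts C β hC hβ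
  have hc1p : 0 < c1 := by rw [hc1]; positivity
  have hNR : (0 : ℝ) < N := by exact_mod_cast hN
  have hδp : 0 < δ := by rw [hδ]; positivity
  set q : ℝ := (c1 ^ 3 / 96) ^ 2 * δ with hq
  have hqp : 0 < q := by positivity
  refine ⟨D, (Real.sqrt q)⁻¹, by exact_mod_cast hD, by positivity, fun n => ⟨D * n, ?_, ?_⟩⟩
  · push_cast; exact le_rfl
  intro 𝕜 _ H _ _ _ Ω _ μ _ x hn hfr h1 h2 hbd
  -- the crucial estimate
  have key : ∃ t : Fin (D * n) → Ω, ∀ a b : H, ∃ z : 𝕜, ‖z‖ = 1 ∧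
      ‖a - z • b‖ ≤ (Real.sqrt q)⁻¹ * Real.sqrt (∑ j,
        (‖(inner 𝕜 ((((Real.sqrt ((D * n : ℕ) : ℝ))⁻¹ : ℝ) : 𝕜) • x (t j)) a : 𝕜)‖ -
          ‖(inner 𝕜 ((((Real.sqrt ((D * n : ℕ) : ℝ))⁻¹ : ℝ) : 𝕜) • x (t j)) b : 𝕜)‖) ^ 2) := by
    rcases Nat.eq_zero_or_pos n with h0 | hpos
    · subst h0
      have hsub : Subsingleton H := Module.finrank_zero_iff.1 hn
      refine ⟨fun j => absurd j.2 (by simp), fun a b => ⟨1, by simp, ?_⟩⟩
      have : a - (1 : 𝕜) • b = 0 := Subsingleton.elim _ _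
      rw [this, norm_zero]
      positivity
    · have hyp : Work.MP_07ff6b_an.Hyp 𝕜 μ x C (β * Real.sqrt n) :=
        { meas := hfr.1
          pars := hfr.2
          bd := hbd
          spr1 := fun a b => h1 _ ⟨a, rfl⟩ _ ⟨b, rfl⟩
          spr2 := fun a b => h2 _ ⟨a, rfl⟩ _ ⟨b, rfl⟩ }
      obtain ⟨t, ht⟩ := Work.MP_07ff6b_an.core C β hC hβ hc1 hN hN1 hN2 hδ hy0 hy1 hD hpos
        (hnum n hpos) hyp hn
      refine ⟨t, fun a b => ?_⟩
      obtain ⟨z, hz, hle⟩ := ht a b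
      refine ⟨z, hz, ?_⟩
      have hm : 0 < D * n := Nat.mul_pos hD hpos
      have hmR : (0 : ℝ) < ((D * n : ℕ) : ℝ) := by exact_mod_cast hm
      have hnorm : ∀ (j : Fin (D * n)) (c : H),
          ‖(inner 𝕜 ((((Real.sqrt ((D * n : ℕ) : ℝ))⁻¹ : ℝ) : 𝕜) • x (t j)) c : 𝕜)‖ =
            (Real.sqrt ((D * n : ℕ) : ℝ))⁻¹ * ‖Work.MP_07ff6b_an.an 𝕜 x c (t j)‖ := by
        intro j c
        rw [inner_smul_left, norm_mul, RCLike.norm_conj, RCLike.norm_ofReal,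
          abs_of_nonneg (by positivity)]
        rfl
      have hsum : ∑ j,
        (‖(inner 𝕜 ((((Real.sqrt ((D * n : ℕ) : ℝ))⁻¹ : ℝ) : 𝕜) • x (t j)) a : 𝕜)‖ -
          ‖(inner 𝕜 ((((Real.sqrt ((D * n : ℕ) : ℝ))⁻¹ : ℝ) : 𝕜) • x (t j)) b : 𝕜)‖) ^ 2 =
          (1 / ((D * n : ℕ) : ℝ)) * ∑ j, (‖Work.MP_07ff6b_an.an 𝕜 x a (t j)‖ -
            ‖Work.MP_07ff6b_an.an 𝕜 x b (t j)‖) ^ 2 := by
        rw [Finset.mul_sum]
        apply Finset.sum_congr rfl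
        intro j _
        rw [hnorm, hnorm, ← mul_sub, mul_pow, inv_pow, Real.sq_sqrt hmR.le, one_div]
      rw [hsum]
      have h3 : ‖a - z • b‖ * Real.sqrt q = Real.sqrt (‖a - z • b‖ ^ 2 * q) := by
        have h5 : Real.sqrt (‖a - z • b‖ ^ 2 * q) = Real.sqrt (‖a - z • b‖ ^ 2) * Real.sqrt q :=
          Real.sqrt_mul (sq_nonneg _) q
        rw [h5, Real.sqrt_sq (norm_nonneg _)]
      have h4 : ‖a - z • b‖ * Real.sqrt q ≤ Real.sqrt ((1 / ((D * n : ℕ) : ℝ)) *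
          ∑ j, (‖Work.MP_07ff6b_an.an 𝕜 x a (t j)‖ -
            ‖Work.MP_07ff6b_an.an 𝕜 x b (t j)‖) ^ 2) := by
        rw [h3]
        exact Real.sqrt_le_sqrt hle
      have hsq : 0 < Real.sqrt q := Real.sqrt_pos.2 hqp
      rw [← div_eq_inv_mul, le_div_iff₀ hsq]
      exact h4
  obtain ⟨t, ht⟩ := key
  refine ⟨t, ?_, ?_⟩
  · -- the sampled family spans
    set y' : Fin (D * n) → H := fun j => (((Real.sqrt ((D * n : ℕ) : ℝ))⁻¹ : ℝ) : 𝕜) • x (t j)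
      with hy'
    rw [← Submodule.orthogonal_eq_bot_iff, Submodule.eq_bot_iff]
    intro a ha
    obtain ⟨z, _, hle⟩ := ht a 0
    have hin : ∀ j, (inner 𝕜 (y' j) a : 𝕜) = 0 := by
      intro j
      exact (Submodule.mem_orthogonal _ _).1 ha _ (Submodule.subset_span ⟨j, rfl⟩)
    have hz : ∑ j, (‖(inner 𝕜 (y' j) a : 𝕜)‖ - ‖(inner 𝕜 (y' j) (0 : H) : 𝕜)‖) ^ 2 = 0 := by
      apply Finset.sum_eq_zero
      intro j _
      rw [hin j, inner_zero_right]; simp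
    have hle' : ‖a - z • (0 : H)‖ ≤ (Real.sqrt q)⁻¹ *
      Real.sqrt (∑ j, (‖(inner 𝕜 (y' j) a : 𝕜)‖ - ‖(inner 𝕜 (y' j) (0 : H) : 𝕜)‖) ^ 2) := hle
    rw [hz, Real.sqrt_zero, mul_zero, smul_zero, sub_zero] at hle'
    exact norm_le_zero_iff.1 hle'
  · intro a b
    obtain ⟨z, hz, hle⟩ := ht a b
    refine le_trans (ciInf_le ⟨0, ?_⟩ ⟨z, by simpa using hz⟩) hle
    rintro _ ⟨z', rfl⟩
    exact norm_nonneg _

end Pool.Agent.Results.MP_07ff6b_an.Main
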